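import Pool.Agent.U524.Camp.Poly

/-!
# The inequality for complex numbers
-/

set_option autoImplicit false

namespace Pool.Agent.U524.Camp

open Complex ComplexConjugate

/-- the algebraic step in real variables: `a = |1 + ζ|`, `e = |1 - ζ|`, `V = 2 |b + 2 ζ + b ζ²|` -/
lemma real_step (κ b a e V m : ℝ) (hκ : 0 < κ) (hκ1 : κ ≤ 1) (hκ3 : 1 ≤ 3 * κ ^ 2) (hb : 0 ≤ b)
    (hb1 : b < 1) (ha : 0 < a) (he : 0 < e) (hae : κ * e ≤ a) (hea : κ * a ≤ e) (_hV : 0 ≤ V)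
    (hVsq : V ^ 2 = ((1 + b) * a ^ 2 + (1 - b) * e ^ 2) ^ 2 - 4 * (1 - b ^ 2) * m ^ 2)
    (hm : κ * (a ^ 2 + e ^ 2) ≤ (1 + κ ^ 2) * m) :
    V ≤ (1 + b) * a ^ 2 + (1 - b) * e ^ 2 - κ * (1 - b) * e * (κ * (1 - b) * e + (1 + b) * a) := by
  obtain ⟨x, hx⟩ : ∃ x, x = (1 - b) / (1 + b) := ⟨_, rfl⟩
  obtain ⟨s, hs⟩ : ∃ s, s = κ * a / e := ⟨_, rfl⟩
  obtain ⟨u, hu⟩ : ∃ u, u = κ ^ 2 := ⟨_, rfl⟩
  have hb2 : 0 < 1 + b := by linarith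
  have hx0 : 0 ≤ x := by rw [hx]; exact div_nonneg (by linarith) hb2.le
  have hx1 : x ≤ 1 := by rw [hx, div_le_one hb2]; linarith
  have hb' : b = (1 - x) / (1 + x) := by
    rw [hx]; field_simp; ring
  have ha' : a = s * e / κ := by rw [hs]; field_simp
  have hu0 : 0 < u := by rw [hu]; positivity
  have hu1 : u ≤ 1 := by rw [hu]; nlinarith
  have hu3 : 1 / 3 ≤ u := by rw [hu]; linarith
  have hsu : u ≤ s := by
    rw [hs, hu, le_div_iff₀ he]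
    nlinarith
  have hs1 : s ≤ 1 := by rw [hs, div_le_one he]; exact hea
  have hs0 : 0 < s := by rw [hs]; positivity
  have key := poly_ineq u s x hu3 hu1 hsu hs1 hx0 hx1
  have base := base_nonneg u s x hu0.le hu1 hsu hx0 hx1
  have hxp : 0 < 1 + x := by linarith
  -- the right hand side
  obtain ⟨B, hB⟩ : ∃ B, B = (1 + x) * (s ^ 2 + u * x) - 2 * u * x * (u * x + s) := ⟨_, rfl⟩
  have hS : (1 + b) * a ^ 2 + (1 - b) * e ^ 2 - κ * (1 - b) * e * (κ * (1 - b) * e + (1 + b) * a)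
      = 2 * e ^ 2 / (u * (1 + x) ^ 2) * B := by
    rw [hB, ha', hb', hu]
    field_simp
    ring
  have hS0 : 0 ≤ 2 * e ^ 2 / (u * (1 + x) ^ 2) * B := by
    refine mul_nonneg (by positivity) ?_
    rw [hB]; exact base
  rw [hS]
  apply le_of_sq_le_sq _ hS0
  rw [hVsq]
  have hm0 : 0 ≤ κ * (a ^ 2 + e ^ 2) / (1 + κ ^ 2) := by positivity
  have hm1 : κ * (a ^ 2 + e ^ 2) / (1 + κ ^ 2) ≤ m := by
    rw [div_le_iff₀ (by positivity)]; linarith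
  have hm2 : (κ * (a ^ 2 + e ^ 2) / (1 + κ ^ 2)) ^ 2 ≤ m ^ 2 := pow_le_pow_left₀ hm0 hm1 2
  have hb3 : 0 ≤ 4 * (1 - b ^ 2) := by nlinarith
  have h1 : ((1 + b) * a ^ 2 + (1 - b) * e ^ 2) ^ 2 - 4 * (1 - b ^ 2) * m ^ 2 ≤
      ((1 + b) * a ^ 2 + (1 - b) * e ^ 2) ^ 2 -
        4 * (1 - b ^ 2) * (κ * (a ^ 2 + e ^ 2) / (1 + κ ^ 2)) ^ 2 := by
    have := mul_le_mul_of_nonneg_left hm2 hb3
    linarith
  refine h1.trans ?_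
  have h2 : ((1 + b) * a ^ 2 + (1 - b) * e ^ 2) ^ 2 -
        4 * (1 - b ^ 2) * (κ * (a ^ 2 + e ^ 2) / (1 + κ ^ 2)) ^ 2 =
      4 * e ^ 4 / (u ^ 2 * (1 + x) ^ 2 * (1 + u) ^ 2) *
        ((1 + u) ^ 2 * (s ^ 2 + u * x) ^ 2 - 4 * x * u * (s ^ 2 + u) ^ 2) := by
    rw [ha', hb', hu]
    field_simp
    ring
  have h3 : (2 * e ^ 2 / (u * (1 + x) ^ 2) * B) ^ 2 =
      4 * e ^ 4 / (u ^ 2 * (1 + x) ^ 2 * (1 + u) ^ 2) * ((1 + u) ^ 2 * B ^ 2 / (1 + x) ^ 2) := by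
    field_simp
    ring
  rw [h2, h3]
  apply mul_le_mul_of_nonneg_left _ (by positivity)
  rw [le_div_iff₀ (by positivity), hB]
  have hux : 0 ≤ 4 * (u * x) := by positivity
  have := mul_nonneg hux (sub_nonneg.2 key)
  linarith

/-- The inequality for complex numbers; `a = |1 + ζ|`, `e = |1 - ζ|`. -/
lemma complex_step (r b : ℝ) (ζ : ℂ) (hr0 : 0 < r) (hr1 : r < 1) (hr : 0 ≤ r ^ 2 - 4 * r + 1)
    (hb : 0 ≤ b) (hb1 : b < 1) (hζ : ‖ζ‖ ≤ r) :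
    2 * (1 + r) ^ 2 * ‖(b : ℂ) + 2 * ζ + b * ζ ^ 2‖ ≤
      (1 + r) ^ 2 * ((1 + b) * ‖1 + ζ‖ ^ 2 + (1 - b) * ‖1 - ζ‖ ^ 2) -
      (1 - r) ^ 2 * (1 - b) ^ 2 * ‖1 - ζ‖ ^ 2 -
      (1 - b ^ 2) * (1 - r ^ 2) * (‖1 + ζ‖ * ‖1 - ζ‖) := by
  obtain ⟨κ, hκ⟩ : ∃ κ, κ = (1 - r) / (1 + r) := ⟨_, rfl⟩
  have hrp : 0 < 1 + r := by linarith
  have hκ0 : 0 < κ := by rw [hκ]; exact div_pos (by linarith) hrp
  have hκ1 : κ ≤ 1 := by rw [hκ, div_le_one hrp]; linarith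
  have hκr : κ * (1 + r) = 1 - r := by rw [hκ]; field_simp
  have hκ3 : 1 ≤ 3 * κ ^ 2 := by
    have : (1 + r) ^ 2 ≤ 3 * κ ^ 2 * (1 + r) ^ 2 := by
      have : 3 * κ ^ 2 * (1 + r) ^ 2 = 3 * (κ * (1 + r)) ^ 2 := by ring
      rw [this, hκr]; nlinarith
    by_contra hcon
    push Not at hcon
    have h2 : 3 * κ ^ 2 * (1 + r) ^ 2 < 1 * (1 + r) ^ 2 := by
      apply mul_lt_mul_of_pos_right hcon (by positivity)
    linarith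
  have hζ0 := norm_nonneg ζ
  have ha1 : 1 - ‖ζ‖ ≤ ‖1 + ζ‖ := by
    have := norm_sub_norm_le (1 : ℂ) (-ζ)
    simpa using this
  have ha2 : ‖1 + ζ‖ ≤ 1 + ‖ζ‖ := by
    have := norm_add_le (1 : ℂ) ζ
    simpa using this
  have he1 : 1 - ‖ζ‖ ≤ ‖1 - ζ‖ := by
    have := norm_sub_norm_le (1 : ℂ) ζ
    simpa using this
  have he2 : ‖1 - ζ‖ ≤ 1 + ‖ζ‖ := by
    have := norm_sub_le (1 : ℂ) ζ
    simpa using this
  have hsum : ‖1 + ζ‖ ^ 2 + ‖1 - ζ‖ ^ 2 = 2 * (1 + ‖ζ‖ ^ 2) := by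
    rw [← Complex.normSq_eq_norm_sq, ← Complex.normSq_eq_norm_sq, ← Complex.normSq_eq_norm_sq]
    simp only [Complex.normSq_apply, Complex.add_re, Complex.add_im, Complex.sub_re,
      Complex.sub_im, Complex.one_re, Complex.one_im]
    ring
  have hVsq : (2 * ‖(b : ℂ) + 2 * ζ + b * ζ ^ 2‖) ^ 2 =
      ((1 + b) * ‖1 + ζ‖ ^ 2 + (1 - b) * ‖1 - ζ‖ ^ 2) ^ 2 - 4 * (1 - b ^ 2) * (1 - ‖ζ‖ ^ 2) ^ 2 := by
    rw [mul_pow, ← Complex.normSq_eq_norm_sq, ← Complex.normSq_eq_norm_sq,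
      ← Complex.normSq_eq_norm_sq, ← Complex.normSq_eq_norm_sq]
    simp only [Complex.normSq_apply, Complex.add_re, Complex.add_im, Complex.sub_re,
      Complex.sub_im, Complex.one_re, Complex.one_im, Complex.mul_re, Complex.mul_im, pow_two,
      Complex.ofReal_re, Complex.ofReal_im, Complex.re_ofNat, Complex.im_ofNat]
    ring
  have hea : κ * ‖1 + ζ‖ ≤ ‖1 - ζ‖ := by
    have h1 : κ * ‖1 + ζ‖ ≤ κ * (1 + r) := mul_le_mul_of_nonneg_left (by linarith) hκ0.le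
    linarith
  have hae : κ * ‖1 - ζ‖ ≤ ‖1 + ζ‖ := by
    have h1 : κ * ‖1 - ζ‖ ≤ κ * (1 + r) := mul_le_mul_of_nonneg_left (by linarith) hκ0.le
    linarith
  have hm : κ * (‖1 + ζ‖ ^ 2 + ‖1 - ζ‖ ^ 2) ≤ (1 + κ ^ 2) * (1 - ‖ζ‖ ^ 2) := by
    rw [hsum]
    have h1 : ‖ζ‖ ^ 2 ≤ r ^ 2 := pow_le_pow_left₀ hζ0 hζ 2
    have h2 : ((1 + κ ^ 2) * (1 - ‖ζ‖ ^ 2) - κ * (2 * (1 + ‖ζ‖ ^ 2))) * (1 + r) ^ 2 =
        4 * (r ^ 2 - ‖ζ‖ ^ 2) := by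
      have e1 : κ ^ 2 * (1 + r) ^ 2 = (1 - r) ^ 2 := by rw [← mul_pow, hκr]
      have e2 : κ * (1 + r) ^ 2 = (1 - r) * (1 + r) := by rw [← hκr]; ring
      linear_combination (1 - ‖ζ‖ ^ 2) * e1 - (2 * (1 + ‖ζ‖ ^ 2)) * e2
    by_contra hcon
    push Not at hcon
    have h3 : ((1 + κ ^ 2) * (1 - ‖ζ‖ ^ 2) - κ * (2 * (1 + ‖ζ‖ ^ 2))) * (1 + r) ^ 2 < 0 :=
      mul_neg_of_neg_of_pos (by linarith) (by positivity)
    linarith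
  have main := real_step κ b ‖1 + ζ‖ ‖1 - ζ‖ (2 * ‖(b : ℂ) + 2 * ζ + b * ζ ^ 2‖) (1 - ‖ζ‖ ^ 2)
    hκ0 hκ1 hκ3 hb hb1 (by linarith) (by linarith) hae hea (by positivity) hVsq hm
  have h5 := mul_le_mul_of_nonneg_left main (show 0 ≤ (1 + r) ^ 2 by positivity)
  have e1 : κ ^ 2 * (1 + r) ^ 2 = (1 - r) ^ 2 := by rw [← mul_pow, hκr]
  have e2 : κ * (1 + r) ^ 2 = (1 - r) * (1 + r) := by rw [← hκr]; ring
  refine le_trans (le_of_eq (by ring)) (h5.trans (le_of_eq ?_))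
  linear_combination (-(1 - b) ^ 2 * ‖1 - ζ‖ ^ 2) * e1 -
    ((1 - b) * (1 + b) * ‖1 - ζ‖ * ‖1 + ζ‖) * e2

/-- The final form of the inequality. Here `n₁ = |1 + b ζ - r² (b + ζ)|`, `n₂ = r (1 - b) |1 - ζ|`. -/
lemma core (r b α : ℝ) (ζ : ℂ) (hr0 : 0 < r) (hr1 : r < 1) (hα : 1 ≤ α)
    (hr : 2 * α * r ≤ (1 - r) ^ 2) (hb : 0 ≤ b) (hb1 : b < 1) (hζ : ‖ζ‖ ≤ r) :
    (1 - r ^ 2) ^ 2 * ‖(b : ℂ) + 2 * ζ + b * ζ ^ 2‖ +
      (1 - r ^ 2) * ((1 - b ^ 2) * (r ^ 2 - ‖ζ‖ ^ 2)) ≤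
    (‖1 + b * ζ - (r : ℂ) ^ 2 * (b + ζ)‖ - r * (1 - b) * ‖1 - ζ‖) *
      (‖1 + b * ζ - (r : ℂ) ^ 2 * (b + ζ)‖ + r * (1 - b) * ‖1 - ζ‖ -
        2 * α * (r * (1 - b) * ‖1 - ζ‖)) := by
  have hr4 : 0 ≤ r ^ 2 - 4 * r + 1 := by nlinarith
  have h1 := complex_step r b ζ hr0 hr1 hr4 hb hb1 hζ
  obtain ⟨n, hn⟩ : ∃ n, n = ‖1 + b * ζ - (r : ℂ) ^ 2 * (b + ζ)‖ := ⟨_, rfl⟩
  obtain ⟨a, ha⟩ : ∃ a, a = ‖1 + ζ‖ := ⟨_, rfl⟩
  obtain ⟨e, he⟩ : ∃ e, e = ‖1 - ζ‖ := ⟨_, rfl⟩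
  obtain ⟨ρ, hρ⟩ : ∃ ρ, ρ = ‖ζ‖ := ⟨_, rfl⟩
  obtain ⟨T, hT⟩ : ∃ T, T = ‖(b : ℂ) + 2 * ζ + b * ζ ^ 2‖ := ⟨_, rfl⟩
  have hb' : 0 < 1 - b := by linarith
  have hrr : 0 < 1 - r ^ 2 := by nlinarith
  -- size of n
  have hn1 : n ≤ ((1 + b) * (1 - r ^ 2) * a + (1 + r ^ 2) * (1 - b) * e) / 2 := by
    have h2 : 1 + b * ζ - (r : ℂ) ^ 2 * (b + ζ) =
        (((1 + b) * (1 - r ^ 2) / 2 : ℝ) : ℂ) * (1 + ζ) +
          (((1 + r ^ 2) * (1 - b) / 2 : ℝ) : ℂ) * (1 - ζ) := by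
      push_cast; ring
    rw [hn, h2, ha, he]
    refine (norm_add_le _ _).trans (le_of_eq ?_)
    rw [norm_mul, norm_mul, Complex.norm_real, Complex.norm_real, Real.norm_eq_abs,
      Real.norm_eq_abs, abs_of_nonneg (by positivity), abs_of_nonneg (by positivity)]
    ring
  have hn2 : n ^ 2 - (r * (1 - b) * e) ^ 2 =
      (1 - r ^ 2) * (1 + b ^ 2 * ρ ^ 2 - r ^ 2 * (b ^ 2 + ρ ^ 2) +
        (1 - r ^ 2) * b * (a ^ 2 - 1 - ρ ^ 2)) := by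
    rw [hn, he, hρ, ha, mul_pow, ← Complex.normSq_eq_norm_sq, ← Complex.normSq_eq_norm_sq,
      ← Complex.normSq_eq_norm_sq, ← Complex.normSq_eq_norm_sq]
    simp only [Complex.normSq_apply, Complex.add_re, Complex.add_im, Complex.sub_re,
      Complex.sub_im, Complex.one_re, Complex.one_im, Complex.mul_re, Complex.mul_im, pow_two,
      Complex.ofReal_re, Complex.ofReal_im]
    ring
  have hsum : a ^ 2 + e ^ 2 = 2 * (1 + ρ ^ 2) := by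
    rw [ha, he, hρ, ← Complex.normSq_eq_norm_sq, ← Complex.normSq_eq_norm_sq,
      ← Complex.normSq_eq_norm_sq]
    simp only [Complex.normSq_apply, Complex.add_re, Complex.add_im, Complex.sub_re,
      Complex.sub_im, Complex.one_re, Complex.one_im]
    ring
  rw [← hn, ← he, ← hρ, ← hT]
  rw [← ha, ← he, ← hT] at h1
  have he0 : 0 ≤ e := by rw [he]; exact norm_nonneg _
  have ha0 : 0 ≤ a := by rw [ha]; exact norm_nonneg _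
  have hρ0 : 0 ≤ ρ := by rw [hρ]; exact norm_nonneg _
  have hρr : ρ ≤ r := by rw [hρ]; exact hζ
  have hn0 : 0 ≤ n := by rw [hn]; exact norm_nonneg _
  have hpos : 0 ≤ n ^ 2 - (r * (1 - b) * e) ^ 2 := by
    rw [hn2]
    apply mul_nonneg hrr.le
    have hρ1 : ρ < 1 := by linarith
    have ea : (1 - ρ) ^ 2 ≤ a ^ 2 := by
      have ha1 : 1 - ρ ≤ a := by
        have := norm_sub_norm_le (1 : ℂ) (-ζ)
        rw [ha, hρ]; simpa using this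
      exact pow_le_pow_left₀ (by linarith) ha1 2
    have e3 : (1 - r ^ 2) * b * (-2 * ρ) ≤ (1 - r ^ 2) * b * (a ^ 2 - 1 - ρ ^ 2) :=
      mul_le_mul_of_nonneg_left (by linarith) (by positivity)
    have e4 : 0 ≤ (1 - b * ρ) ^ 2 - r ^ 2 * (b - ρ) ^ 2 := by
      have j1 : 0 ≤ (1 - b) * (1 + ρ) := mul_nonneg (by linarith) (by linarith)
      have j2 : 0 ≤ (1 + b) * (1 - ρ) := mul_nonneg (by linarith) (by linarith)
      have i1 : |b - ρ| ≤ 1 - b * ρ := by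
        rw [abs_le]; constructor <;> linarith
      have i2 : (b - ρ) ^ 2 ≤ (1 - b * ρ) ^ 2 := by
        rw [← sq_abs (b - ρ)]
        exact pow_le_pow_left₀ (abs_nonneg _) i1 2
      have i3 : r ^ 2 * (b - ρ) ^ 2 ≤ 1 * (b - ρ) ^ 2 :=
        mul_le_mul_of_nonneg_right (by linarith) (sq_nonneg _)
      linarith
    linarith
  have hnn : r * (1 - b) * e ≤ n := by
    apply le_of_sq_le_sq _ hn0
    linarith
  -- replace α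
  have hα2 : 2 * α * (r * (1 - b) * e) ≤ (1 - r) ^ 2 * (1 - b) * e := by
    have h0 : 0 ≤ (1 - b) * e := by positivity
    have h0' := mul_le_mul_of_nonneg_right hr h0
    linarith
  have h6 : (n - r * (1 - b) * e) * (n + r * (1 - b) * e - (1 - r) ^ 2 * (1 - b) * e) ≤
      (n - r * (1 - b) * e) * (n + r * (1 - b) * e - 2 * α * (r * (1 - b) * e)) :=
    mul_le_mul_of_nonneg_left (by linarith) (by linarith)
  refine le_trans ?_ h6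
  have h7 : (n - r * (1 - b) * e) * (n + r * (1 - b) * e - (1 - r) ^ 2 * (1 - b) * e) =
      (n ^ 2 - (r * (1 - b) * e) ^ 2) - (1 - r) ^ 2 * (1 - b) * e * n +
        r * (1 - r) ^ 2 * (1 - b) ^ 2 * e ^ 2 := by ring
  rw [h7]
  have h8 : (1 - r) ^ 2 * (1 - b) * e * n ≤ (1 - r) ^ 2 * (1 - b) * e *
      (((1 + b) * (1 - r ^ 2) * a + (1 + r ^ 2) * (1 - b) * e) / 2) :=
    mul_le_mul_of_nonneg_left hn1 (by positivity)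
  have h9 := mul_le_mul_of_nonneg_left h1 (show 0 ≤ (1 - r) ^ 2 / 2 by positivity)
  rw [hn2]
  have hρe : ρ ^ 2 = (a ^ 2 + e ^ 2) / 2 - 1 := by linarith
  rw [hρe]
  linarith

end Pool.Agent.U524.Camp
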