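import Pool.Agent.Helper34.Bw.Mob

/-!
# The distortion theorem for locally univalent functions of order at most `α`
-/

set_option autoImplicit false

namespace Pool.Agent.U524.Camp

open Complex Metric Set Filter Topology ComplexConjugate
open Pool.Agent.Helper34.Bw (mob den_ne mob_identity one_sub_normSq_mob norm_mob_le norm_mob_lt
  differentiableAt_mob mob_neg_mob mob_self mob_zero hasDerivAt_mob schwarz_pick)

lemma hasDerivAt_log_norm {γ : ℝ → ℂ} {γ' : ℂ} {s : ℝ} (h : HasDerivAt γ γ' s) (h0 : γ s ≠ 0) :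
    HasDerivAt (fun s => Real.log ‖γ s‖) (γ' / γ s).re s := by
  have hre : HasDerivAt (fun s => (γ s).re) γ'.re s :=
    (Complex.reCLM.hasFDerivAt.comp_hasDerivAt s h)
  have him : HasDerivAt (fun s => (γ s).im) γ'.im s :=
    (Complex.imCLM.hasFDerivAt.comp_hasDerivAt s h)
  have hn : HasDerivAt (fun s => (γ s).re ^ 2 + (γ s).im ^ 2)
      (2 * (γ s).re * γ'.re + 2 * (γ s).im * γ'.im) s := by
    have := (hre.fun_pow 2).fun_add (him.fun_pow 2)
    refine this.congr_deriv ?_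
    simp
  have hpos : 0 < (γ s).re ^ 2 + (γ s).im ^ 2 := by
    have := Complex.normSq_pos.2 h0
    rw [Complex.normSq_apply] at this
    nlinarith
  have h2 := (hn.log hpos.ne').const_mul (1 / 2 : ℝ)
  have e1 : (fun s => Real.log ‖γ s‖) = fun s => 1 / 2 * Real.log ((γ s).re ^ 2 + (γ s).im ^ 2) := by
    funext t
    have : (γ t).re ^ 2 + (γ t).im ^ 2 = ‖γ t‖ ^ 2 := by
      rw [← Complex.normSq_eq_norm_sq, Complex.normSq_apply]; ring
    rw [this, Real.log_pow]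
    push_cast
    ring
  rw [e1]
  refine h2.congr_deriv ?_
  rw [Complex.div_re, Complex.normSq_apply]
  have h3 : (γ s).re * (γ s).re + (γ s).im * (γ s).im ≠ 0 := by nlinarith
  field_simp

/-- `F` is locally univalent in the unit disc and has order at most `α`. -/
structure OrderLe (α : ℝ) (F : ℂ → ℂ) : Prop where
  diff : DifferentiableOn ℂ F (ball 0 1)
  ne : ∀ z ∈ ball (0 : ℂ) 1, deriv F z ≠ 0
  le : ∀ z ∈ ball (0 : ℂ) 1,
    ‖-conj z + (1 - (‖z‖ : ℂ) ^ 2) * deriv (deriv F) z / (2 * deriv F z)‖ ≤ α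

lemma key_alg (a A z Z D : ℂ) (h1 : 1 + A * z ≠ 0) (h2 : 1 + a * Z ≠ 0) :
    (1 - z * Z) * (D * ((1 - a * A) / (1 + A * z) ^ 2) - 2 * A / (1 + A * z)) =
      2 * ((1 + a * Z) / (1 + A * z) * (-((Z + A) / (1 + a * Z)) +
        (1 - (z + a) / (1 + A * z) * ((Z + A) / (1 + a * Z))) * D / 2) + Z) := by
  obtain ⟨P, hP⟩ : ∃ P, P = 1 + A * z := ⟨_, rfl⟩
  obtain ⟨Q, hQ⟩ : ∃ Q, Q = 1 + a * Z := ⟨_, rfl⟩
  rw [← hP] at h1 ⊢
  rw [← hQ] at h2 ⊢
  field_simp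
  rw [hP, hQ]
  ring

/-- The pointwise form of linear invariance. -/
lemma order_at {α : ℝ} {F : ℂ → ℂ} (hF : OrderLe α F) {a ζ : ℂ} (ha : ‖a‖ < 1) (hζ : ‖ζ‖ < 1) :
    (ζ * (deriv (deriv F) (mob (-a) ζ) / deriv F (mob (-a) ζ) *
      (((1 - ‖a‖ ^ 2 : ℝ) : ℂ) / (1 + conj a * ζ) ^ 2) - 2 * conj a / (1 + conj a * ζ))).re *
        (1 - ‖ζ‖ ^ 2) ≤ 2 * ‖ζ‖ * α + 2 * ‖ζ‖ ^ 2 := by
  have hna : ‖-a‖ < 1 := by rwa [norm_neg]
  have hc : ‖mob (-a) ζ‖ < 1 := norm_mob_lt hna hζ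
  have hle := hF.le _ (by simpa using hc)
  have hne := hF.ne _ (by simpa using hc)
  have hden : 1 + conj a * ζ ≠ 0 := by
    have := den_ne hna hζ.le
    rw [map_neg, neg_mul, sub_neg_eq_add] at this
    exact this
  have hcdef : mob (-a) ζ = (ζ + a) / (1 + conj a * ζ) := by
    unfold mob
    rw [map_neg, neg_mul, sub_neg_eq_add, sub_neg_eq_add]
  obtain ⟨c, hcd⟩ : ∃ c, c = mob (-a) ζ := ⟨_, rfl⟩
  obtain ⟨D, hD⟩ : ∃ D, D = deriv (deriv F) (mob (-a) ζ) / deriv F (mob (-a) ζ) := ⟨_, rfl⟩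
  have hle' : ‖-conj c + (1 - (‖c‖ : ℂ) ^ 2) * D / 2‖ ≤ α := by
    rw [hcd, hD]
    refine le_trans (le_of_eq ?_) hle
    congr 1
    field_simp
  -- the unimodular factor
  obtain ⟨ω, hω⟩ : ∃ ω, ω = conj (1 + conj a * ζ) / (1 + conj a * ζ) := ⟨_, rfl⟩
  have hω1 : ‖ω‖ = 1 := by
    rw [hω, norm_div, RCLike.norm_conj, div_self]
    exact norm_ne_zero_iff.2 hden
  have hcden : conj (1 + conj a * ζ) ≠ 0 := by
    intro h
    apply hden
    have := congrArg conj h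
    simpa using this
  have hn1 : ((1 - ‖a‖ ^ 2 : ℝ) : ℂ) = 1 - a * conj a := by
    rw [Complex.mul_conj, Complex.normSq_eq_norm_sq]; push_cast; ring
  have hnz : ((1 - ‖ζ‖ ^ 2 : ℝ) : ℂ) = 1 - ζ * conj ζ := by
    rw [Complex.mul_conj, Complex.normSq_eq_norm_sq]; push_cast; ring
  have hnc : (1 - (‖c‖ : ℂ) ^ 2) = 1 - c * conj c := by
    rw [Complex.mul_conj, Complex.normSq_eq_norm_sq]; push_cast; ring
  have hcden' : 1 + a * conj ζ ≠ 0 := by
    simpa using hcden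
  have key : ((1 - ‖ζ‖ ^ 2 : ℝ) : ℂ) * (D * (((1 - ‖a‖ ^ 2 : ℝ) : ℂ) / (1 + conj a * ζ) ^ 2) -
      2 * conj a / (1 + conj a * ζ)) = 2 * (ω * (-conj c + (1 - (‖c‖ : ℂ) ^ 2) * D / 2) + conj ζ) := by
    rw [hn1, hnz, hnc, hω, hcd, hcdef]
    simp only [map_add, map_div₀, map_mul, map_one, Complex.conj_conj]
    exact key_alg a (conj a) ζ (conj ζ) D hden hcden'
  have h1 : (ζ * (D * (((1 - ‖a‖ ^ 2 : ℝ) : ℂ) / (1 + conj a * ζ) ^ 2) -
      2 * conj a / (1 + conj a * ζ))).re * (1 - ‖ζ‖ ^ 2) =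
      (ζ * (((1 - ‖ζ‖ ^ 2 : ℝ) : ℂ) * (D * (((1 - ‖a‖ ^ 2 : ℝ) : ℂ) / (1 + conj a * ζ) ^ 2) -
      2 * conj a / (1 + conj a * ζ)))).re := by
    rw [mul_left_comm, Complex.re_ofReal_mul]; ring
  rw [← hD, h1, key]
  have h2 : (ζ * (2 * (ω * (-conj c + (1 - (‖c‖ : ℂ) ^ 2) * D / 2) + conj ζ))).re =
      2 * (ζ * (ω * (-conj c + (1 - (‖c‖ : ℂ) ^ 2) * D / 2))).re + 2 * ‖ζ‖ ^ 2 := by
    have : ζ * (2 * (ω * (-conj c + (1 - (‖c‖ : ℂ) ^ 2) * D / 2) + conj ζ)) =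
        ((2 : ℝ) : ℂ) * (ζ * (ω * (-conj c + (1 - (‖c‖ : ℂ) ^ 2) * D / 2))) +
          ((2 * ‖ζ‖ ^ 2 : ℝ) : ℂ) := by
      have h3 : ζ * conj ζ = ((‖ζ‖ ^ 2 : ℝ) : ℂ) := by
        rw [Complex.mul_conj, Complex.normSq_eq_norm_sq]
      push_cast at h3 ⊢
      linear_combination 2 * h3
    rw [this, Complex.add_re, Complex.re_ofReal_mul, Complex.ofReal_re]
  rw [h2]
  have h3 : (ζ * (ω * (-conj c + (1 - (‖c‖ : ℂ) ^ 2) * D / 2))).re ≤ ‖ζ‖ * α := by
    refine (Complex.re_le_norm _).trans ?_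
    rw [norm_mul, norm_mul, hω1, one_mul]
    exact mul_le_mul_of_nonneg_left hle' (norm_nonneg _)
  linarith

lemma norm_smul_lt {ζ : ℂ} {s : ℝ} (hζ : ‖ζ‖ < 1) (hs : s ∈ Icc (0 : ℝ) 1) :
    ‖(s : ℂ) * ζ‖ < 1 := by
  rw [norm_mul, Complex.norm_real, Real.norm_eq_abs, abs_of_nonneg hs.1]
  have := norm_nonneg ζ
  nlinarith [hs.1, hs.2]

/-- **Distortion theorem**, logarithmic form. -/
lemma dist_log {α : ℝ} {F : ℂ → ℂ} (hF : OrderLe α F) {a ζ : ℂ} (ha : ‖a‖ < 1) (hζ : ‖ζ‖ < 1) :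
    Real.log ‖deriv F (mob (-a) ζ)‖ - 2 * Real.log ‖1 + conj a * ζ‖ + Real.log (1 - ‖ζ‖ ^ 2) -
      α * (Real.log (1 + ‖ζ‖) - Real.log (1 - ‖ζ‖)) ≤ Real.log ‖deriv F a‖ := by
  obtain ⟨d, hd⟩ : ∃ d, d = ‖ζ‖ := ⟨_, rfl⟩
  have hd0 : 0 ≤ d := by rw [hd]; exact norm_nonneg _
  have hd1 : d < 1 := by rw [hd]; exact hζ
  set k : ℝ → ℝ := fun s => Real.log ‖deriv F (mob (-a) ((s : ℂ) * ζ))‖ -
    2 * Real.log ‖1 + conj a * ((s : ℂ) * ζ)‖ + Real.log (1 - (s * d) ^ 2) -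
      α * (Real.log (1 + s * d) - Real.log (1 - s * d)) with hk
  have hna : ‖-a‖ < 1 := by rwa [norm_neg]
  have hder : ∀ s ∈ Icc (0 : ℝ) 1, ∃ k', HasDerivAt k k' s ∧ k' ≤ 0 := by
    intro s hs
    have hsζ := norm_smul_lt hζ hs
    have hsn : ‖(s : ℂ) * ζ‖ = s * d := by
      rw [norm_mul, Complex.norm_real, Real.norm_eq_abs, abs_of_nonneg hs.1, hd]
    have hsd : s * d < 1 := by rw [← hsn]; exact hsζ
    have hsd0 : 0 ≤ s * d := mul_nonneg hs.1 hd0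
    have hγ : HasDerivAt (fun s : ℝ => (s : ℂ) * ζ) ζ s := by
      have := (Complex.ofRealCLM.hasDerivAt (x := s)).mul_const ζ
      simpa using this
    have hden : 1 + conj a * ((s : ℂ) * ζ) ≠ 0 := by
      have := den_ne hna hsζ.le
      rw [map_neg, neg_mul, sub_neg_eq_add] at this
      exact this
    have hm := hasDerivAt_mob hna hsζ.le
    rw [map_neg, neg_mul, sub_neg_eq_add, norm_neg] at hm
    have hc : mob (-a) ((s : ℂ) * ζ) ∈ ball (0 : ℂ) 1 := by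
      simpa using norm_mob_lt hna hsζ
    have hF2 : HasDerivAt (deriv F) (deriv (deriv F) (mob (-a) ((s : ℂ) * ζ)))
        (mob (-a) ((s : ℂ) * ζ)) :=
      ((hF.diff.deriv isOpen_ball).differentiableAt (isOpen_ball.mem_nhds hc)).hasDerivAt
    have h1 : HasDerivAt (fun s : ℝ => deriv F (mob (-a) ((s : ℂ) * ζ)))
        (deriv (deriv F) (mob (-a) ((s : ℂ) * ζ)) *
          (((1 - ‖a‖ ^ 2 : ℝ) : ℂ) / (1 + conj a * ((s : ℂ) * ζ)) ^ 2 * ζ)) s := by
      have := hF2.comp s (hm.comp s hγ)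
      exact this
    have h2 : HasDerivAt (fun s : ℝ => 1 + conj a * ((s : ℂ) * ζ)) (conj a * ζ) s :=
      (hγ.const_mul (conj a)).const_add 1
    have l1 := hasDerivAt_log_norm h1 (hF.ne _ hc)
    have l2 := (hasDerivAt_log_norm h2 hden).const_mul 2
    have p : HasDerivAt (fun s : ℝ => s * d) d s := by
      simpa using (hasDerivAt_id s).mul_const d
    have l3 : HasDerivAt (fun s : ℝ => Real.log (1 - (s * d) ^ 2))
        (-(2 * (s * d) * d) / (1 - (s * d) ^ 2)) s := by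
      have h3 : HasDerivAt (fun s : ℝ => 1 - (s * d) ^ 2) (-(2 * (s * d) * d)) s := by
        have := (p.pow 2).const_sub 1
        simpa using this
      exact h3.log (by nlinarith)
    have l4 : HasDerivAt (fun s : ℝ => Real.log (1 + s * d)) (d / (1 + s * d)) s :=
      (p.const_add 1).log (by linarith)
    have l5 : HasDerivAt (fun s : ℝ => Real.log (1 - s * d)) (-d / (1 - s * d)) s :=
      (p.const_sub 1).log (by linarith)
    have hall := ((l1.sub l2).add l3).sub ((l4.sub l5).const_mul α)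
    refine ⟨_, hall, ?_⟩
    have horder := order_at hF ha hsζ
    rw [hsn] at horder
    have hpos : 0 < 1 - (s * d) ^ 2 := by nlinarith
    have e45 : α * (d / (1 + s * d) - -d / (1 - s * d)) = 2 * α * d / (1 - (s * d) ^ 2) := by
      have h5 : (1 : ℝ) + s * d ≠ 0 := by linarith
      have h6 : (1 : ℝ) - s * d ≠ 0 := by linarith
      have h7 : (1 : ℝ) - (s * d) ^ 2 ≠ 0 := hpos.ne'
      have h8 : (1 : ℝ) - (s * d) ^ 2 = (1 + s * d) * (1 - s * d) := by ring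
      rw [h8, neg_div, sub_neg_eq_add, div_add_div _ _ h5 h6, mul_div_assoc', div_left_inj' (by positivity)]
      ring
    rw [e45]
    -- the real part
    obtain ⟨X, hX⟩ : ∃ X : ℂ, X = deriv (deriv F) (mob (-a) ((s : ℂ) * ζ)) /
      deriv F (mob (-a) ((s : ℂ) * ζ)) * (((1 - ‖a‖ ^ 2 : ℝ) : ℂ) /
      (1 + conj a * ((s : ℂ) * ζ)) ^ 2) - 2 * conj a / (1 + conj a * ((s : ℂ) * ζ)) := ⟨_, rfl⟩
    have hre : (deriv (deriv F) (mob (-a) ((s : ℂ) * ζ)) *
          (((1 - ‖a‖ ^ 2 : ℝ) : ℂ) / (1 + conj a * ((s : ℂ) * ζ)) ^ 2 * ζ) /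
            deriv F (mob (-a) ((s : ℂ) * ζ))).re -
        2 * (conj a * ζ / (1 + conj a * ((s : ℂ) * ζ))).re = (ζ * X).re := by
      have : ((2 : ℝ) : ℂ) * (conj a * ζ / (1 + conj a * ((s : ℂ) * ζ))) =
          ζ * (2 * conj a / (1 + conj a * ((s : ℂ) * ζ))) := by
        push_cast; ring
      rw [← Complex.re_ofReal_mul, this, ← Complex.sub_re, hX]
      congr 1
      ring
    rw [hre]
    rw [← hX, mul_assoc, Complex.re_ofReal_mul] at horder
    -- divide by `s`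
    have hgoal : (ζ * X).re * (1 - (s * d) ^ 2) ≤ 2 * d * α + 2 * (s * d) * d := by
      rcases eq_or_lt_of_le hs.1 with h0 | h0
      · -- `s = 0`: use the order at the point `a`
        subst h0
        have hle := hF.le a (by simpa using ha)
        have hne := hF.ne a (by simpa using ha)
        have e0 : mob (-a) (((0 : ℝ) : ℂ) * ζ) = a := by
          rw [Complex.ofReal_zero, zero_mul, mob_zero, neg_neg]
        have hX0 : X = 2 * (-conj a + (1 - (‖a‖ : ℂ) ^ 2) * deriv (deriv F) a / (2 * deriv F a)) := by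
          rw [hX, e0]
          simp only [Complex.ofReal_zero, zero_mul, mul_zero, add_zero, one_pow, div_one]
          push_cast
          field_simp
          ring
        have h9 : (ζ * X).re ≤ 2 * d * α := by
          refine (Complex.re_le_norm _).trans ?_
          rw [hX0, norm_mul, norm_mul, Complex.norm_ofNat, ← hd]
          nlinarith
        simpa using h9
      · have h10 : s * ((ζ * X).re * (1 - (s * d) ^ 2)) ≤ s * (2 * d * α + 2 * (s * d) * d) := by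
          calc s * ((ζ * X).re * (1 - (s * d) ^ 2)) = s * (ζ * X).re * (1 - (s * d) ^ 2) := by ring
            _ ≤ 2 * (s * d) * α + 2 * (s * d) ^ 2 := horder
            _ = _ := by ring
        exact le_of_mul_le_mul_left h10 h0
    have h11 : (ζ * X).re ≤ (2 * d * α + 2 * (s * d) * d) / (1 - (s * d) ^ 2) := by
      rw [le_div_iff₀ hpos]; exact hgoal
    have h12 : (2 * d * α + 2 * (s * d) * d) / (1 - (s * d) ^ 2) +
        -(2 * (s * d) * d) / (1 - (s * d) ^ 2) - 2 * α * d / (1 - (s * d) ^ 2) = 0 := by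
      field_simp
      ring
    linarith
  have hanti : AntitoneOn k (Icc 0 1) := by
    apply antitoneOn_of_deriv_nonpos (convex_Icc 0 1)
    · intro s hs
      obtain ⟨k', h1, -⟩ := hder s hs
      exact h1.continuousAt.continuousWithinAt
    · intro s hs
      rw [interior_Icc] at hs
      obtain ⟨k', h1, -⟩ := hder s ⟨hs.1.le, hs.2.le⟩
      exact h1.differentiableAt.differentiableWithinAt
    · intro s hs
      rw [interior_Icc] at hs
      obtain ⟨k', h1, h2⟩ := hder s ⟨hs.1.le, hs.2.le⟩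
      rw [h1.deriv]; exact h2
  have hfin := hanti (left_mem_Icc.2 zero_le_one) (right_mem_Icc.2 zero_le_one) zero_le_one
  simp only [hk, Complex.ofReal_one, one_mul, Complex.ofReal_zero, zero_mul, mob_zero, neg_neg,
    mul_zero, add_zero, norm_one, Real.log_one, sub_zero, ne_eq, OfNat.ofNat_ne_zero,
    not_false_eq_true, zero_pow, sub_self] at hfin
  rw [← hd]
  exact hfin

/-- **Distortion theorem** with Bernoulli's inequality. -/
lemma dist_bern {α : ℝ} (hα : 1 ≤ α) {F : ℂ → ℂ} (hF : OrderLe α F) {a c : ℂ} (ha : ‖a‖ < 1)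
    (hc : ‖c‖ < 1) :
    ‖deriv F c‖ * (1 - ‖c‖ ^ 2) * (‖1 - conj a * c‖ + ‖c - a‖ - 2 * α * ‖c - a‖) ≤
      ‖deriv F a‖ * (1 - ‖a‖ ^ 2) * (‖1 - conj a * c‖ + ‖c - a‖) := by
  obtain ⟨ζ, hζd⟩ : ∃ ζ, ζ = mob a c := ⟨_, rfl⟩
  have hζ : ‖ζ‖ < 1 := by rw [hζd]; exact norm_mob_lt ha hc
  have hback : mob (-a) ζ = c := by rw [hζd]; exact mob_neg_mob ha hc.le
  have h := dist_log hF ha hζ
  rw [hback] at h
  have hna : ‖-a‖ < 1 := by rwa [norm_neg]
  have hden : 1 + conj a * ζ ≠ 0 := by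
    have := den_ne hna hζ.le
    rw [map_neg, neg_mul, sub_neg_eq_add] at this
    exact this
  have hdenp : 0 < ‖1 + conj a * ζ‖ := norm_pos_iff.2 hden
  have hid : 1 - ‖c‖ ^ 2 = (1 - ‖a‖ ^ 2) * (1 - ‖ζ‖ ^ 2) / ‖1 + conj a * ζ‖ ^ 2 := by
    have := one_sub_normSq_mob hna hζ.le
    rw [hback, norm_neg, map_neg, neg_mul, sub_neg_eq_add] at this
    exact this
  have ha1 : 0 < 1 - ‖a‖ ^ 2 := by nlinarith [norm_nonneg a]
  have hζ1 : 0 < 1 - ‖ζ‖ ^ 2 := by nlinarith [norm_nonneg ζ]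
  have hc1 : 0 < 1 - ‖c‖ ^ 2 := by nlinarith [norm_nonneg c]
  have hFc : 0 < ‖deriv F c‖ := norm_pos_iff.2 (hF.ne c (by simpa using hc))
  have hFa : 0 < ‖deriv F a‖ := norm_pos_iff.2 (hF.ne a (by simpa using ha))
  have hζ0 := norm_nonneg ζ
  have hp : 0 < 1 + ‖ζ‖ := by linarith
  have hm : 0 < 1 - ‖ζ‖ := by linarith
  have hlog : Real.log (‖deriv F c‖ * (1 - ‖c‖ ^ 2) * ((1 - ‖ζ‖) / (1 + ‖ζ‖)) ^ α) ≤
      Real.log (‖deriv F a‖ * (1 - ‖a‖ ^ 2)) := by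
    rw [Real.log_mul (by positivity) (by positivity), Real.log_mul hFc.ne' hc1.ne',
      Real.log_mul hFa.ne' ha1.ne', Real.log_rpow (by positivity), Real.log_div hm.ne' hp.ne', hid,
      Real.log_div (by positivity) (by positivity), Real.log_mul ha1.ne' hζ1.ne', Real.log_pow]
    push_cast
    linarith
  have h1 := (Real.log_le_log_iff (by positivity) (by positivity)).1 hlog
  have hbern := one_add_mul_self_le_rpow_one_add (s := -(2 * ‖ζ‖ / (1 + ‖ζ‖)))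
    (by rw [neg_le_neg_iff, div_le_one hp]; linarith) hα
  have e1 : 1 + -(2 * ‖ζ‖ / (1 + ‖ζ‖)) = (1 - ‖ζ‖) / (1 + ‖ζ‖) := by
    field_simp; ring
  rw [e1] at hbern
  have h2 : ‖deriv F c‖ * (1 - ‖c‖ ^ 2) * (1 + α * -(2 * ‖ζ‖ / (1 + ‖ζ‖))) ≤
      ‖deriv F a‖ * (1 - ‖a‖ ^ 2) :=
    (mul_le_mul_of_nonneg_left hbern (by positivity)).trans h1
  have hD : 1 - conj a * c ≠ 0 := den_ne ha hc.le
  have hDp : 0 < ‖1 - conj a * c‖ := norm_pos_iff.2 hD
  have hζn : ‖ζ‖ = ‖c - a‖ / ‖1 - conj a * c‖ := by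
    rw [hζd, mob, norm_div]
  have h3 := mul_le_mul_of_nonneg_right h2 (show 0 ≤ ‖1 - conj a * c‖ + ‖c - a‖ by positivity)
  refine le_trans (le_of_eq ?_) h3
  rw [hζn, mul_assoc _ _ (‖1 - conj a * c‖ + ‖c - a‖)]
  congr 1
  have : 0 < ‖1 - conj a * c‖ + ‖c - a‖ := by
    have := norm_nonneg (c - a); linarith
  field_simp
  ring

end Pool.Agent.U524.Camp
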