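import Mathlib

/-!
# The polynomial inequality behind the majorization theorem
-/

set_option autoImplicit false

namespace Pool.Agent.U524.Camp

lemma c0_nonneg (y l : ℝ) (hy : 0 ≤ y) (hy' : 3 * y ≤ 2) (hl : 0 ≤ l) (hl' : l ≤ 1) :
    0 ≤ (4)*l + (-8)*y*l + (-4)*y*l^2 + (3)*y^2*l + (10)*y^2*l^2 + (-3)*y^3*l^2 + (-4)*y^3*l^3 + (1)*y^3*l^4 + (1)*y^4*l^3 := by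
  have hY : 0 ≤ 3 / 2 * y := by positivity
  have hY' : 0 ≤ 1 - 3 / 2 * y := by linarith
  have hL' : 0 ≤ 1 - l := by linarith
  have h : (4)*l + (-8)*y*l + (-4)*y*l^2 + (3)*y^2*l + (10)*y^2*l^2 + (-3)*y^3*l^2 + (-4)*y^3*l^3 + (1)*y^3*l^4 + (1)*y^4*l^3 = 4 * (3 / 2 * y) ^ 0 * (1 - 3 / 2 * y) ^ 4 * l ^ 1 * (1 - l) ^ 3 + 12 * (3 / 2 * y) ^ 0 * (1 - 3 / 2 * y) ^ 4 * l ^ 2 * (1 - l) ^ 2 + 12 * (3 / 2 * y) ^ 0 * (1 - 3 / 2 * y) ^ 4 * l ^ 3 * (1 - l) ^ 1 + 4 * (3 / 2 * y) ^ 0 * (1 - 3 / 2 * y) ^ 4 * l ^ 4 * (1 - l) ^ 0 + (32/3) * (3 / 2 * y) ^ 1 * (1 - 3 / 2 * y) ^ 3 * l ^ 1 * (1 - l) ^ 3 + (88/3) * (3 / 2 * y) ^ 1 * (1 - 3 / 2 * y) ^ 3 * l ^ 2 * (1 - l) ^ 2 + (80/3) * (3 / 2 * y) ^ 1 * (1 - 3 / 2 * y) ^ 3 * l ^ 3 * (1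 - l) ^ 1 + 8 * (3 / 2 * y) ^ 1 * (1 - 3 / 2 * y) ^ 3 * l ^ 4 * (1 - l) ^ 0 + (28/3) * (3 / 2 * y) ^ 2 * (1 - 3 / 2 * y) ^ 2 * l ^ 1 * (1 - l) ^ 3 + (220/9) * (3 / 2 * y) ^ 2 * (1 - 3 / 2 * y) ^ 2 * l ^ 2 * (1 - l) ^ 2 + (188/9) * (3 / 2 * y) ^ 2 * (1 - 3 / 2 * y) ^ 2 * l ^ 3 * (1 - l) ^ 1 + (52/9) * (3 / 2 * y) ^ 2 * (1 - 3 / 2 * y) ^ 2 * l ^ 4 * (1 - l) ^ 0 + (8/3) * (3 / 2 * y) ^ 3 * (1 - 3 / 2 * y) ^ 1 * l ^ 1 * (1 - l) ^ 3 + 8 * (3 / 2 * y) ^ 3 * (1 - 3 / 2 * y) ^ 1 * l ^ 2 * (1 - l) ^ 2 + (184/27) * (3 / 2 * y) ^ 3 * (1 - 3 / 2 * y) ^ 1 * l ^ 3 * (1 - l) ^ 1 + (16/9) * (3 / 2 * y) ^ 3 * (1 - 3 / 2 * y) ^ 1 * l ^ 4 * (1 - l) ^ 0 + (8/9) * (3 / 2 * y) ^ 4 * (1 - 3 / 2 * y) ^ 0 * l ^ 2 * (1 - l) ^ 2 + (64/81)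 * (3 / 2 * y) ^ 4 * (1 - 3 / 2 * y) ^ 0 * l ^ 3 * (1 - l) ^ 1 + (16/81) * (3 / 2 * y) ^ 4 * (1 - 3 / 2 * y) ^ 0 * l ^ 4 * (1 - l) ^ 0 := by ring
  rw [h]
  positivity

lemma c1_nonneg (y l : ℝ) (hy : 0 ≤ y) (hy' : 3 * y ≤ 2) (hl : 0 ≤ l) (hl' : l ≤ 1) :
    0 ≤ (4) + (12)*l + (-4)*y + (-36)*y*l + (-8)*y*l^2 + (1)*y^2 + (17)*y^2*l + (38)*y^2*l^2 + (-4)*y^2*l^3 + (-1)*y^3*l + (-12)*y^3*l^2 + (-16)*y^3*l^3 + (5)*y^3*l^4 + (4)*y^4*l^3 := by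
  have hY : 0 ≤ 3 / 2 * y := by positivity
  have hY' : 0 ≤ 1 - 3 / 2 * y := by linarith
  have hL' : 0 ≤ 1 - l := by linarith
  have h : (4) + (12)*l + (-4)*y + (-36)*y*l + (-8)*y*l^2 + (1)*y^2 + (17)*y^2*l + (38)*y^2*l^2 + (-4)*y^2*l^3 + (-1)*y^3*l + (-12)*y^3*l^2 + (-16)*y^3*l^3 + (5)*y^3*l^4 + (4)*y^4*l^3 = 4 * (3 / 2 * y) ^ 0 * (1 - 3 / 2 * y) ^ 4 * l ^ 0 * (1 - l) ^ 4 + 28 * (3 / 2 * y) ^ 0 * (1 - 3 / 2 * y) ^ 4 * l ^ 1 * (1 - l) ^ 3 + 60 * (3 / 2 * y) ^ 0 * (1 - 3 / 2 * y) ^ 4 * l ^ 2 * (1 - l) ^ 2 + 52 * (3 / 2 * y) ^ 0 * (1 - 3 / 2 * y) ^ 4 * l ^ 3 * (1 - l) ^ 1 + 16 * (3 / 2 * y) ^ 0 * (1 - 3 / 2 * y) ^ 4 * l ^ 4 * (1 - l) ^ 0 + (40/3) * (3 / 2 * y) ^ 1 * (1 - 3 / 2 * y) ^ 3 * l ^ 0 * (1 - l) ^ 4 + (232/3)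 * (3 / 2 * y) ^ 1 * (1 - 3 / 2 * y) ^ 3 * l ^ 1 * (1 - l) ^ 3 + (440/3) * (3 / 2 * y) ^ 1 * (1 - 3 / 2 * y) ^ 3 * l ^ 2 * (1 - l) ^ 2 + (344/3) * (3 / 2 * y) ^ 1 * (1 - 3 / 2 * y) ^ 3 * l ^ 3 * (1 - l) ^ 1 + 32 * (3 / 2 * y) ^ 1 * (1 - 3 / 2 * y) ^ 3 * l ^ 4 * (1 - l) ^ 0 + (148/9) * (3 / 2 * y) ^ 2 * (1 - 3 / 2 * y) ^ 2 * l ^ 0 * (1 - l) ^ 4 + (220/3) * (3 / 2 * y) ^ 2 * (1 - 3 / 2 * y) ^ 2 * l ^ 1 * (1 - l) ^ 3 + (1100/9) * (3 / 2 * y) ^ 2 * (1 - 3 / 2 * y) ^ 2 * l ^ 2 * (1 - l) ^ 2 + (796/9) * (3 / 2 * y) ^ 2 * (1 - 3 / 2 * y) ^ 2 * l ^ 3 * (1 - l) ^ 1 + (208/9) * (3 / 2 * y) ^ 2 * (1 - 3 / 2 * y) ^ 2 * l ^ 4 * (1 - l) ^ 0 + (80/9) * (3 / 2 * y) ^ 3 * (1 - 3 / 2 * y) ^ 1 * l ^ 0 * (1 - l) ^ 4 + (712/27) * (3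 / 2 * y) ^ 3 * (1 - 3 / 2 * y) ^ 1 * l ^ 1 * (1 - l) ^ 3 + 40 * (3 / 2 * y) ^ 3 * (1 - 3 / 2 * y) ^ 1 * l ^ 2 * (1 - l) ^ 2 + (760/27) * (3 / 2 * y) ^ 3 * (1 - 3 / 2 * y) ^ 1 * l ^ 3 * (1 - l) ^ 1 + (64/9) * (3 / 2 * y) ^ 3 * (1 - 3 / 2 * y) ^ 1 * l ^ 4 * (1 - l) ^ 0 + (16/9) * (3 / 2 * y) ^ 4 * (1 - 3 / 2 * y) ^ 0 * l ^ 0 * (1 - l) ^ 4 + (64/27) * (3 / 2 * y) ^ 4 * (1 - 3 / 2 * y) ^ 0 * l ^ 1 * (1 - l) ^ 3 + (40/9) * (3 / 2 * y) ^ 4 * (1 - 3 / 2 * y) ^ 0 * l ^ 2 * (1 - l) ^ 2 + (256/81) * (3 / 2 * y) ^ 4 * (1 - 3 / 2 * y) ^ 0 * l ^ 3 * (1 - l) ^ 1 + (64/81) * (3 / 2 * y) ^ 4 * (1 - 3 / 2 * y) ^ 0 * l ^ 4 * (1 - l) ^ 0 := by ring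
  rw [h]
  positivity

lemma c2_nonneg (y l : ℝ) (hy : 0 ≤ y) (hy' : 3 * y ≤ 2) (hl : 0 ≤ l) (hl' : l ≤ 1) :
    0 ≤ (8) + (8)*l + (-4)*y + (-44)*y*l + (-2)*y^2 + (14)*y^2*l + (52)*y^2*l^2 + (-12)*y^2*l^3 + (1)*y^3 + (7)*y^3*l + (-20)*y^3*l^2 + (-20)*y^3*l^3 + (8)*y^3*l^4 + (-2)*y^4*l + (1)*y^4*l^2 + (5)*y^4*l^3 := by
  have hY : 0 ≤ 3 / 2 * y := by positivity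
  have hY' : 0 ≤ 1 - 3 / 2 * y := by linarith
  have hL' : 0 ≤ 1 - l := by linarith
  have h : (8) + (8)*l + (-4)*y + (-44)*y*l + (-2)*y^2 + (14)*y^2*l + (52)*y^2*l^2 + (-12)*y^2*l^3 + (1)*y^3 + (7)*y^3*l + (-20)*y^3*l^2 + (-20)*y^3*l^3 + (8)*y^3*l^4 + (-2)*y^4*l + (1)*y^4*l^2 + (5)*y^4*l^3 = 8 * (3 / 2 * y) ^ 0 * (1 - 3 / 2 * y) ^ 4 * l ^ 0 * (1 - l) ^ 4 + 40 * (3 / 2 * y) ^ 0 * (1 - 3 / 2 * y) ^ 4 * l ^ 1 * (1 - l) ^ 3 + 72 * (3 / 2 * y) ^ 0 * (1 - 3 / 2 * y) ^ 4 * l ^ 2 * (1 - l) ^ 2 + 56 * (3 / 2 * y) ^ 0 * (1 - 3 / 2 * y) ^ 4 * l ^ 3 * (1 - l) ^ 1 + 16 * (3 / 2 * y) ^ 0 * (1 - 3 / 2 * y) ^ 4 * l ^ 4 * (1 - l) ^ 0 + (88/3) * (3 / 2 * y) ^ 1 * (1 - 3 / 2 * y) ^ 3 * l ^ 0 * (1 - l) ^ 4 + 120 * (3 / 2 * y) ^ 1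 * (1 - 3 / 2 * y) ^ 3 * l ^ 1 * (1 - l) ^ 3 + 184 * (3 / 2 * y) ^ 1 * (1 - 3 / 2 * y) ^ 3 * l ^ 2 * (1 - l) ^ 2 + (376/3) * (3 / 2 * y) ^ 1 * (1 - 3 / 2 * y) ^ 3 * l ^ 3 * (1 - l) ^ 1 + 32 * (3 / 2 * y) ^ 1 * (1 - 3 / 2 * y) ^ 3 * l ^ 4 * (1 - l) ^ 0 + (352/9) * (3 / 2 * y) ^ 2 * (1 - 3 / 2 * y) ^ 2 * l ^ 0 * (1 - l) ^ 4 + (368/3) * (3 / 2 * y) ^ 2 * (1 - 3 / 2 * y) ^ 2 * l ^ 1 * (1 - l) ^ 3 + (1408/9) * (3 / 2 * y) ^ 2 * (1 - 3 / 2 * y) ^ 2 * l ^ 2 * (1 - l) ^ 2 + 96 * (3 / 2 * y) ^ 2 * (1 - 3 / 2 * y) ^ 2 * l ^ 3 * (1 - l) ^ 1 + (208/9) * (3 / 2 * y) ^ 2 * (1 - 3 / 2 * y) ^ 2 * l ^ 4 * (1 - l) ^ 0 + (608/27) * (3 / 2 * y) ^ 3 * (1 - 3 / 2 * y) ^ 1 * l ^ 0 * (1 - l) ^ 4 + (1312/27) * (3 / 2 * y) ^ 3 * (1 - 3 /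 2 * y) ^ 1 * l ^ 1 * (1 - l) ^ 3 + (1376/27) * (3 / 2 * y) ^ 3 * (1 - 3 / 2 * y) ^ 1 * l ^ 2 * (1 - l) ^ 2 + (800/27) * (3 / 2 * y) ^ 3 * (1 - 3 / 2 * y) ^ 1 * l ^ 3 * (1 - l) ^ 1 + (64/9) * (3 / 2 * y) ^ 3 * (1 - 3 / 2 * y) ^ 1 * l ^ 4 * (1 - l) ^ 0 + (128/27) * (3 / 2 * y) ^ 4 * (1 - 3 / 2 * y) ^ 0 * l ^ 0 * (1 - l) ^ 4 + (448/81) * (3 / 2 * y) ^ 4 * (1 - 3 / 2 * y) ^ 0 * l ^ 1 * (1 - l) ^ 3 + (448/81) * (3 / 2 * y) ^ 4 * (1 - 3 / 2 * y) ^ 0 * l ^ 2 * (1 - l) ^ 2 + (256/81) * (3 / 2 * y) ^ 4 * (1 - 3 / 2 * y) ^ 0 * l ^ 3 * (1 - l) ^ 1 + (64/81) * (3 / 2 * y) ^ 4 * (1 - 3 / 2 * y) ^ 0 * l ^ 4 * (1 - l) ^ 0 := by ring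
  rw [h]
  positivity

lemma c3_nonneg (y l : ℝ) (hy : 0 ≤ y) (hy' : 3 * y ≤ 2) (hl : 0 ≤ l) (hl' : l ≤ 1) :
    0 ≤ (12)*y + (-16)*y*l + (4)*y*l^2 + (-16)*y^2 + (24)*y^2*l^2 + (-8)*y^2*l^3 + (7)*y^3 + (8)*y^3*l + (-11)*y^3*l^2 + (-8)*y^3*l^3 + (4)*y^3*l^4 + (-1)*y^4 + (-2)*y^4*l + (1)*y^4*l^2 + (2)*y^4*l^3 := by
  have hY : 0 ≤ 3 / 2 * y := by positivity
  have hY' : 0 ≤ 1 - 3 / 2 * y := by linarith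
  have hL' : 0 ≤ 1 - l := by linarith
  have h : (12)*y + (-16)*y*l + (4)*y*l^2 + (-16)*y^2 + (24)*y^2*l^2 + (-8)*y^2*l^3 + (7)*y^3 + (8)*y^3*l + (-11)*y^3*l^2 + (-8)*y^3*l^3 + (4)*y^3*l^4 + (-1)*y^4 + (-2)*y^4*l + (1)*y^4*l^2 + (2)*y^4*l^3 = 8 * (3 / 2 * y) ^ 1 * (1 - 3 / 2 * y) ^ 3 * l ^ 0 * (1 - l) ^ 4 + (64/3) * (3 / 2 * y) ^ 1 * (1 - 3 / 2 * y) ^ 3 * l ^ 1 * (1 - l) ^ 3 + (56/3) * (3 / 2 * y) ^ 1 * (1 - 3 / 2 * y) ^ 3 * l ^ 2 * (1 - l) ^ 2 + (16/3) * (3 / 2 * y) ^ 1 * (1 - 3 / 2 * y) ^ 3 * l ^ 3 * (1 - l) ^ 1 + (152/9) * (3 / 2 * y) ^ 2 * (1 - 3 / 2 * y) ^ 2 * l ^ 0 * (1 - l) ^ 4 + (320/9) * (3 / 2 * y) ^ 2 * (1 - 3 / 2 * y) ^ 2 * l ^ 1 * (1 - l) ^ 3 + 24 * (3 / 2 * y) ^ 2 * (1 - 3 / 2 * y) ^ 2 * l ^ 2 * (1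 - l) ^ 2 + (16/3) * (3 / 2 * y) ^ 2 * (1 - 3 / 2 * y) ^ 2 * l ^ 3 * (1 - l) ^ 1 + (320/27) * (3 / 2 * y) ^ 3 * (1 - 3 / 2 * y) ^ 1 * l ^ 0 * (1 - l) ^ 4 + (160/9) * (3 / 2 * y) ^ 3 * (1 - 3 / 2 * y) ^ 1 * l ^ 1 * (1 - l) ^ 3 + (224/27) * (3 / 2 * y) ^ 3 * (1 - 3 / 2 * y) ^ 1 * l ^ 2 * (1 - l) ^ 2 + (32/27) * (3 / 2 * y) ^ 3 * (1 - 3 / 2 * y) ^ 1 * l ^ 3 * (1 - l) ^ 1 + (224/81) * (3 / 2 * y) ^ 4 * (1 - 3 / 2 * y) ^ 0 * l ^ 0 * (1 - l) ^ 4 + (64/27) * (3 / 2 * y) ^ 4 * (1 - 3 / 2 * y) ^ 0 * l ^ 1 * (1 - l) ^ 3 + (64/81) * (3 / 2 * y) ^ 4 * (1 - 3 / 2 * y) ^ 0 * l ^ 2 * (1 - l) ^ 2 := by ring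
  rw [h]
  positivity


/-- The polynomial inequality in the normalised variables. -/
lemma poly_ineq (u s x : ℝ) (hu : 1 / 3 ≤ u) (hu1 : u ≤ 1) (h1 : u ≤ s) (h2 : s ≤ 1) (hx : 0 ≤ x)
    (hx1 : x ≤ 1) :
    (1 + u) ^ 2 * ((s + u * x) * (s ^ 2 * (1 + x) + u * x * ((1 + x) - (s + u * x)))) ≤
      (1 + x) ^ 2 * (s ^ 2 + u) ^ 2 := by
  rcases eq_or_lt_of_le hu1 with h | h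
  · have hs : s = 1 := le_antisymm h2 (by linarith)
    rw [hs, h]
    ring_nf
    exact le_rfl
  · have hy : 0 < 1 - u := by linarith
    obtain ⟨y, hyd⟩ : ∃ y, y = 1 - u := ⟨_, rfl⟩
    obtain ⟨l, hl⟩ : ∃ l, l = (1 - s) / (1 - u) := ⟨_, rfl⟩
    have hl0 : 0 ≤ l := by rw [hl]; exact div_nonneg (by linarith) hy.le
    have hl1 : l ≤ 1 := by rw [hl, div_le_one hy]; linarith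
    have hs : s = 1 - y * l := by rw [hl, hyd]; field_simp; ring
    have hu' : u = 1 - y := by rw [hyd]; ring
    have hy0 : 0 ≤ y := by rw [hyd]; exact hy.le
    have hy2 : 3 * y ≤ 2 := by rw [hyd]; linarith
    have e0 := c0_nonneg y l hy0 hy2 hl0 hl1
    have e1 := c1_nonneg y l hy0 hy2 hl0 hl1
    have e2 := c2_nonneg y l hy0 hy2 hl0 hl1
    have e3 := c3_nonneg y l hy0 hy2 hl0 hl1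
    have hx' : 0 ≤ 1 - x := by linarith
    have key := mul_nonneg hy0 (add_nonneg (add_nonneg (add_nonneg
      (mul_nonneg e0 (pow_nonneg hx' 3)) (mul_nonneg e1 (mul_nonneg hx (pow_nonneg hx' 2))))
      (mul_nonneg e2 (mul_nonneg (pow_nonneg hx 2) hx'))) (mul_nonneg e3 (pow_nonneg hx 3)))
    rw [hs, hu', ← sub_nonneg]
    refine key.trans (le_of_eq ?_)
    ring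

/-- Nonnegativity of the right hand side. -/
lemma base_nonneg (u s x : ℝ) (hu : 0 ≤ u) (hu1 : u ≤ 1) (h1 : u ≤ s) (hx : 0 ≤ x)
    (hx1 : x ≤ 1) : 0 ≤ (1 + x) * (s ^ 2 + u * x) - 2 * u * x * (u * x + s) := by
  have a1 : 0 ≤ u * x * (s - 1) ^ 2 := by positivity
  have a2 : 0 ≤ (1 - u) * (x * s ^ 2) := mul_nonneg (by linarith) (by positivity)
  have a3 : u ^ 2 ≤ s ^ 2 := pow_le_pow_left₀ hu h1 2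
  have a4 : 0 ≤ u ^ 2 * (1 - x ^ 2) := mul_nonneg (sq_nonneg u) (by nlinarith)
  have a5 : 0 ≤ u * x ^ 2 * (1 - u) := mul_nonneg (by positivity) (by linarith)
  nlinarith

end Pool.Agent.U524.Camp
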