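import Pool.Agent.Helper34.Bw.Mob

/-!
# The derivative of a self-map of the disc that fixes the origin
-/

set_option autoImplicit false

namespace Pool.Agent.U524.Camp

open Complex Metric Set Filter Topology ComplexConjugate
open Pool.Agent.Helper34.Bw (mob den_ne mob_identity one_sub_normSq_mob norm_mob_le norm_mob_lt
  differentiableAt_mob mob_neg_mob mob_self mob_zero hasDerivAt_mob schwarz_pick)

lemma dslope_diff {w : ℂ → ℂ} (hw : DifferentiableOn ℂ w (ball 0 1)) :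
    DifferentiableOn ℂ (dslope w 0) (ball 0 1) :=
  (Complex.differentiableOn_dslope (ball_mem_nhds 0 one_pos)).2 hw

lemma eq_mul_dslope {w : ℂ → ℂ} (h0 : w 0 = 0) (z : ℂ) : w z = z * dslope w 0 z := by
  have := sub_smul_dslope w 0 z
  rw [sub_zero, h0, sub_zero, smul_eq_mul] at this
  exact this.symm

/-- Schwarz lemma for the quotient -/
lemma norm_dslope_le {w : ℂ → ℂ} (hw : DifferentiableOn ℂ w (ball 0 1))
    (hb : ∀ z ∈ ball (0 : ℂ) 1, ‖w z‖ ≤ 1) (h0 : w 0 = 0) :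
    ∀ z ∈ ball (0 : ℂ) 1, ‖dslope w 0 z‖ ≤ 1 := by
  intro z hz
  have hm : MapsTo w (ball 0 1) (closedBall (w 0) 1) := by
    intro z hz
    rw [h0, mem_closedBall_zero_iff]
    exact hb z hz
  have := Complex.norm_dslope_le_div_of_mapsTo_ball hw hm hz
  simpa using this

lemma deriv_eq_dslope {w : ℂ → ℂ} (hw : DifferentiableOn ℂ w (ball 0 1)) (h0 : w 0 = 0) {z : ℂ}
    (hz : z ∈ ball (0 : ℂ) 1) : deriv w z = dslope w 0 z + z * deriv (dslope w 0) z := by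
  have h1 : w = fun z => z * dslope w 0 z := funext fun z => eq_mul_dslope h0 z
  have h2 : HasDerivAt (fun z => z * dslope w 0 z) (1 * dslope w 0 z + z * deriv (dslope w 0) z) z :=
    (hasDerivAt_id z).mul
      ((dslope_diff hw).differentiableAt (isOpen_ball.mem_nhds hz)).hasDerivAt
  rw [one_mul] at h2
  conv_lhs => rw [h1]
  exact h2.deriv

/-- The structure of `w` and `w'` at a point of the disc. -/
lemma deriv_bound {w : ℂ → ℂ} (hw : DifferentiableOn ℂ w (ball 0 1))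
    (hb : ∀ z ∈ ball (0 : ℂ) 1, ‖w z‖ ≤ ‖z‖) {b : ℝ} (hb0 : 0 ≤ b) (hb1 : b < 1)
    (hd : deriv w 0 = b) {z : ℂ} (hz : ‖z‖ < 1) :
    ∃ ζ : ℂ, ‖ζ‖ ≤ ‖z‖ ∧ w z * (1 + b * ζ) = z * (b + ζ) ∧
      ‖deriv w z‖ * ‖1 + b * ζ‖ ^ 2 * (1 - ‖z‖ ^ 2) ≤
        (1 - ‖z‖ ^ 2) * ‖(b : ℂ) + 2 * ζ + b * ζ ^ 2‖ + (1 - b ^ 2) * (‖z‖ ^ 2 - ‖ζ‖ ^ 2) := by
  have hw0 : w 0 = 0 := by
    have := hb 0 (mem_ball_self one_pos)
    simpa using this
  have hwb : ∀ z ∈ ball (0 : ℂ) 1, ‖w z‖ ≤ 1 := fun z hz =>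
    (hb z hz).trans (le_of_lt (by simpa using hz))
  have hzb : z ∈ ball (0 : ℂ) 1 := by simpa using hz
  set φ := dslope w 0 with hφ
  have hφd := dslope_diff hw
  have hφb := norm_dslope_le hw hwb hw0
  have hφ0 : φ 0 = b := by rw [hφ, dslope_same, hd]
  have hbn : ‖(b : ℂ)‖ < 1 := by
    rw [Complex.norm_real, Real.norm_eq_abs, abs_of_nonneg hb0]; exact hb1
  set ψ : ℂ → ℂ := fun z => mob b (φ z) with hψ
  have hψd : DifferentiableOn ℂ ψ (ball 0 1) := fun u hu =>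
    ((differentiableAt_mob hbn (hφb u hu)).comp u
      (hφd.differentiableAt (isOpen_ball.mem_nhds hu))).differentiableWithinAt
  have hψb : ∀ u ∈ ball (0 : ℂ) 1, ‖ψ u‖ ≤ 1 := fun u hu => norm_mob_le hbn (hφb u hu)
  have hψ0 : ψ 0 = 0 := by simp only [hψ, hφ0]; exact mob_self _
  set g := dslope ψ 0 with hg
  have hgd := dslope_diff hψd
  have hgb := norm_dslope_le hψd hψb hψ0
  have hψg : ψ z = z * g z := eq_mul_dslope hψ0 z
  have hψ' := deriv_eq_dslope hψd hψ0 hzb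
  have hsp := schwarz_pick hgd hgb hz
  obtain ⟨ζ, hζ⟩ : ∃ ζ, ζ = ψ z := ⟨_, rfl⟩
  have hζn : ‖ζ‖ = ‖z‖ * ‖g z‖ := by rw [hζ, hψg, norm_mul]
  have hζle : ‖ζ‖ ≤ ‖z‖ := by
    rw [hζn]
    exact mul_le_of_le_one_right (norm_nonneg _) (hgb z hzb)
  have hζ1 : ‖ζ‖ < 1 := lt_of_le_of_lt hζle hz
  have hnb : ‖-(b : ℂ)‖ < 1 := by rwa [norm_neg]
  have hcb : conj (b : ℂ) = b := Complex.conj_ofReal b
  have hden : 1 + (b : ℂ) * ζ ≠ 0 := by
    have := den_ne hnb hζ1.le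
    rw [map_neg, neg_mul, sub_neg_eq_add, hcb] at this
    exact this
  have hφψ : φ z = (b + ζ) / (1 + b * ζ) := by
    have h1 : mob (-(b : ℂ)) (ψ z) = φ z := mob_neg_mob hbn (hφb z hzb)
    rw [← h1, ← hζ]
    unfold mob
    rw [map_neg, neg_mul, sub_neg_eq_add, sub_neg_eq_add, hcb, add_comm]
  -- derivative of φ
  have hφ' : deriv φ z = ((1 - b ^ 2 : ℝ) : ℂ) / (1 + b * ζ) ^ 2 * (g z + z * deriv g z) := by
    have e1 : (fun u => mob (-(b : ℂ)) (ψ u)) =ᶠ[𝓝 z] φ := by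
      filter_upwards [isOpen_ball.mem_nhds hzb] with u hu
      exact mob_neg_mob hbn (hφb u hu)
    have h2 := hasDerivAt_mob hnb (hψb z hzb)
    have h3 : HasDerivAt ψ (deriv ψ z) z :=
      (hψd.differentiableAt (isOpen_ball.mem_nhds hzb)).hasDerivAt
    have h4 := (h2.comp z h3).congr_of_eventuallyEq e1.symm
    rw [h4.deriv, hψ', map_neg, neg_mul, sub_neg_eq_add, hcb, norm_neg, Complex.norm_real,
      Real.norm_eq_abs, abs_of_nonneg hb0, ← hζ]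
  refine ⟨ζ, hζle, ?_, ?_⟩
  · have h5 : w z = z * φ z := eq_mul_dslope hw0 z
    rw [h5, hφψ]
    field_simp
  · have h6 : deriv w z * (1 + b * ζ) ^ 2 =
        ((b : ℂ) + 2 * ζ + b * ζ ^ 2) + ((1 - b ^ 2 : ℝ) : ℂ) * (z ^ 2 * deriv g z) := by
      have h7 : deriv w z = φ z + z * deriv φ z := deriv_eq_dslope hw hw0 hzb
      have h8 : z * g z = ζ := by rw [hζ, hψg]
      have h9 : z * deriv φ z * (1 + b * ζ) ^ 2 =
          ((1 - b ^ 2 : ℝ) : ℂ) * (ζ + z ^ 2 * deriv g z) := by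
        obtain ⟨P, hP⟩ : ∃ P, P = (1 + (b : ℂ) * ζ) ^ 2 := ⟨_, rfl⟩
        have hP0 : P ≠ 0 := by rw [hP]; exact pow_ne_zero 2 hden
        rw [hφ', ← hP]
        have : z * (((1 - b ^ 2 : ℝ) : ℂ) / P * (g z + z * deriv g z)) * P =
            ((1 - b ^ 2 : ℝ) : ℂ) * (z * g z + z ^ 2 * deriv g z) := by
          field_simp
        rw [this, h8]
      have h10 : φ z * (1 + b * ζ) ^ 2 = (b + ζ) * (1 + b * ζ) := by
        rw [hφψ]; field_simp
      rw [h7, add_mul, h9, h10]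
      push_cast
      ring
    have h11 : ‖deriv w z‖ * ‖1 + b * ζ‖ ^ 2 ≤
        ‖(b : ℂ) + 2 * ζ + b * ζ ^ 2‖ + (1 - b ^ 2) * (‖z‖ ^ 2 * ‖deriv g z‖) := by
      rw [← norm_pow, ← norm_mul, h6]
      refine (norm_add_le _ _).trans (le_of_eq ?_)
      rw [norm_mul, norm_mul, norm_pow, Complex.norm_real, Real.norm_eq_abs, abs_of_nonneg]
      nlinarith
    have hz2 : 0 < 1 - ‖z‖ ^ 2 := by nlinarith [norm_nonneg z]
    have h12 := mul_le_mul_of_nonneg_right h11 hz2.le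
    refine h12.trans ?_
    have hb2 : 0 ≤ 1 - b ^ 2 := by nlinarith
    have h13 : ‖z‖ ^ 2 * ((1 - ‖z‖ ^ 2) * ‖deriv g z‖) ≤ ‖z‖ ^ 2 * (1 - ‖g z‖ ^ 2) :=
      mul_le_mul_of_nonneg_left hsp (sq_nonneg _)
    have h14 := mul_le_mul_of_nonneg_left h13 hb2
    have h15 : ‖z‖ ^ 2 * (1 - ‖g z‖ ^ 2) = ‖z‖ ^ 2 - ‖ζ‖ ^ 2 := by rw [hζn]; ring
    rw [h15] at h14
    linarith

/-- If `w'(0) = 1` then `w` is the identity. -/
lemma eq_id {w : ℂ → ℂ} (hw : DifferentiableOn ℂ w (ball 0 1))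
    (hb : ∀ z ∈ ball (0 : ℂ) 1, ‖w z‖ ≤ ‖z‖) (hd : deriv w 0 = 1) :
    ∀ z ∈ ball (0 : ℂ) 1, w z = z := by
  have hw0 : w 0 = 0 := by
    have := hb 0 (mem_ball_self one_pos)
    simpa using this
  have hwb : ∀ z ∈ ball (0 : ℂ) 1, ‖w z‖ ≤ 1 := fun z hz =>
    (hb z hz).trans (le_of_lt (by simpa using hz))
  have hφd := dslope_diff hw
  have hφb := norm_dslope_le hw hwb hw0
  have hφ0 : dslope w 0 0 = 1 := by rw [dslope_same, hd]
  intro z hz
  have hmax : IsMaxOn (norm ∘ dslope w 0) (ball 0 1) 0 := by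
    intro u hu
    simp only [Function.comp, Set.mem_ofPred_eq, hφ0, norm_one]
    exact hφb u hu
  have h1 := Complex.eqOn_of_isPreconnected_of_isMaxOn_norm
    (convex_ball (0 : ℂ) 1).isPreconnected isOpen_ball hφd (mem_ball_self one_pos) hmax
  have h2 := h1 hz
  simp only [Function.const_apply, hφ0] at h2
  rw [eq_mul_dslope hw0 z, h2, mul_one]

end Pool.Agent.U524.Camp
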